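import Pool.Agent.Helper50.GX.Defs

/-! # IDX: the congruence subgroups of the group of skew power series of norm one -/

set_option autoImplicit false
set_option linter.unusedSimpArgs false

namespace Pool.Agent.Helper50.GX

/-- coefficients below degree `n / 3` vanish -/
def idx_O {K : Type} [Field K] (n : ℤ) (P : PowerSeries K) : Prop :=
  ∀ s : ℕ, 3 * (s : ℤ) < n → PowerSeries.coeff s P = 0

section basic

variable {K : Type} [Field K]

theorem idx_O_mul {n m : ℤ} {P Q : PowerSeries K} (hP : idx_O n P) (hQ : idx_O m Q) :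
    idx_O (n + m) (P * Q) := by
  intro s hs
  rw [PowerSeries.coeff_mul]
  apply Finset.sum_eq_zero
  rintro ⟨a, b⟩ hab
  rw [Finset.HasAntidiagonal.mem_antidiagonal] at hab
  dsimp only at hab ⊢
  by_cases ha : 3 * (a : ℤ) < n
  · rw [hP a ha, zero_mul]
  · rw [hQ b (by have : (a : ℤ) + b = s := by exact_mod_cast hab
                 omega), mul_zero]

theorem idx_O_add {n : ℤ} {P Q : PowerSeries K} (hP : idx_O n P) (hQ : idx_O n Q) :
    idx_O n (P + Q) := by
  intro s hs
  rw [map_add, hP s hs, hQ s hs, add_zero]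

theorem idx_O_neg {n : ℤ} {P : PowerSeries K} (hP : idx_O n P) : idx_O n (-P) := by
  intro s hs
  rw [map_neg, hP s hs, neg_zero]

theorem idx_O_sub {n : ℤ} {P Q : PowerSeries K} (hP : idx_O n P) (hQ : idx_O n Q) :
    idx_O n (P - Q) := by
  rw [sub_eq_add_neg]
  exact idx_O_add hP (idx_O_neg hQ)

theorem idx_Filp {d : ℕ} {M : PMat K} :
    Filp d M ↔ ∀ i j : Fin 3, idx_O ((d : ℤ) + (i : ℕ) - (j : ℕ)) (M i j) := by
  unfold Filp idx_O
  constructor
  · intro h i j s hs
    exact h i j s (by omega)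
  · intro h i j s hs
    exact h i j s (by omega)

theorem idx_Filp_mul {d e : ℕ} {M N : PMat K} (hM : Filp d M) (hN : Filp e N) :
    Filp (d + e) (M * N) := by
  rw [idx_Filp] at *
  intro i j
  rw [Matrix.mul_apply]
  intro s hs
  rw [map_sum]
  apply Finset.sum_eq_zero
  intro k _
  apply idx_O_mul (hM i k) (hN k j) s
  push_cast at hs ⊢
  omega

theorem idx_Filp_add {d : ℕ} {M N : PMat K} (hM : Filp d M) (hN : Filp d N) : Filp d (M + N) := by
  intro i j s hs
  rw [Matrix.add_apply, map_add, hM i j s hs, hN i j s hs, add_zero]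

theorem idx_Filp_sub {d : ℕ} {M N : PMat K} (hM : Filp d M) (hN : Filp d N) : Filp d (M - N) := by
  intro i j s hs
  rw [Matrix.sub_apply, map_sub, hM i j s hs, hN i j s hs, sub_zero]

theorem idx_Filp_neg {d : ℕ} {M : PMat K} (hM : Filp d M) : Filp d (-M) := by
  intro i j s hs
  rw [Matrix.neg_apply, map_neg, hM i j s hs, neg_zero]

theorem idx_Filp_zero {d : ℕ} : Filp d (0 : PMat K) := by
  intro i j s _
  rw [Matrix.zero_apply, map_zero]

theorem idx_Filp_mono {d e : ℕ} (h : e ≤ d) {M : PMat K} (hM : Filp d M) : Filp e M :=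
  fun i j s hs => hM i j s (by omega)

end basic

/-! ### the relations -/

section circ

variable {K : Type} [Field K] {σ : K ≃+* K}

/-- the entries of a matrix of skew power series -/
structure idx_E (σ : K ≃+* K) (M : PMat K) : Prop where
  e10 : M 1 0 = PowerSeries.map (σ : K →+* K) (M 0 2) * PowerSeries.X
  e11 : M 1 1 = PowerSeries.map (σ : K →+* K) (M 0 0)
  e12 : M 1 2 = PowerSeries.map (σ : K →+* K) (M 0 1)
  e20 : M 2 0 = PowerSeries.map (σ : K →+* K) (M 1 2) * PowerSeries.X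
  e21 : M 2 1 = PowerSeries.map (σ : K →+* K) (M 1 0)
  e22 : M 2 2 = PowerSeries.map (σ : K →+* K) (M 1 1)

theorem idx_circ_E {M : PMat K} (h : Circ σ M) : idx_E σ M := by
  unfold Circ at h
  have h' : ∀ i j : Fin 3, (M.map (PowerSeries.map (σ : K →+* K)) * Zp : PMat K) i j =
      (Zp * M : PMat K) i j := by
    intro i j
    rw [h]
  refine ⟨?_, ?_, ?_, ?_, ?_, ?_⟩
  · have := h' 0 0
    simp [Matrix.mul_apply, Fin.sum_univ_three, Zp] at this
    exact this.symm
  · have := h' 0 1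
    simp [Matrix.mul_apply, Fin.sum_univ_three, Zp] at this
    exact this.symm
  · have := h' 0 2
    simp [Matrix.mul_apply, Fin.sum_univ_three, Zp] at this
    exact this.symm
  · have := h' 1 0
    simp [Matrix.mul_apply, Fin.sum_univ_three, Zp] at this
    exact this.symm
  · have := h' 1 1
    simp [Matrix.mul_apply, Fin.sum_univ_three, Zp] at this
    exact this.symm
  · have := h' 1 2
    simp [Matrix.mul_apply, Fin.sum_univ_three, Zp] at this
    exact this.symm

theorem idx_circ_one : Circ σ (1 : PMat K) := by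
  unfold Circ
  rw [Matrix.map_one _ (map_zero _) (map_one _), one_mul, mul_one]

theorem idx_circ_mul {M N : PMat K} (hM : Circ σ M) (hN : Circ σ N) : Circ σ (M * N) := by
  unfold Circ at *
  rw [Matrix.map_mul, mul_assoc, hN, ← mul_assoc, hM, mul_assoc]

theorem idx_circ_sub {M N : PMat K} (hM : Circ σ M) (hN : Circ σ N) : Circ σ (M - N) := by
  unfold Circ at *
  have : (M - N).map (PowerSeries.map (σ : K →+* K)) = M.map (PowerSeries.map (σ : K →+* K)) -
      N.map (PowerSeries.map (σ : K →+* K)) := by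
    ext i j
    simp
  rw [this, sub_mul, hM, hN, mul_sub]

theorem idx_circ_inv (g : (PMat K)ˣ) (h : Circ σ g.val) : Circ σ g⁻¹.val := by
  unfold Circ at *
  have h1 : g⁻¹.val.map (PowerSeries.map (σ : K →+* K)) * g.val.map (PowerSeries.map (σ : K →+* K)) = 1 := by
    rw [← Matrix.map_mul, Units.inv_mul, Matrix.map_one _ (map_zero _) (map_one _)]
  calc g⁻¹.val.map (PowerSeries.map (σ : K →+* K)) * Zp
      = g⁻¹.val.map (PowerSeries.map (σ : K →+* K)) * (Zp * g.val) * g⁻¹.val := by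
        rw [mul_assoc, mul_assoc, Units.mul_inv, mul_one]
    _ = g⁻¹.val.map (PowerSeries.map (σ : K →+* K)) *
          (g.val.map (PowerSeries.map (σ : K →+* K)) * Zp) * g⁻¹.val := by rw [h]
    _ = Zp * g⁻¹.val := by rw [← mul_assoc, h1, one_mul]

theorem idx_coeff_shift (P : PowerSeries K) (s : ℕ) :
    PowerSeries.coeff (s + 1) (PowerSeries.map (σ : K →+* K) P * PowerSeries.X) =
      σ (PowerSeries.coeff s P) := by
  rw [PowerSeries.coeff_succ_mul_X, PowerSeries.coeff_map]
  rfl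

theorem idx_coeff_shift0 (P : PowerSeries K) :
    PowerSeries.coeff 0 (P * PowerSeries.X) = 0 := by
  rw [PowerSeries.coeff_zero_mul_X]

theorem idx_coeff_map (P : PowerSeries K) (s : ℕ) :
    PowerSeries.coeff s (PowerSeries.map (σ : K →+* K) P) = σ (PowerSeries.coeff s P) := by
  rw [PowerSeries.coeff_map]
  rfl

/-- the coefficient of degree `m` -/
noncomputable def idx_cf (m : ℕ) (M : PMat K) : K :=
  PowerSeries.coeff (m / 3) (M 0 ⟨m % 3, Nat.mod_lt _ (by norm_num)⟩)

theorem idx_cf_eq {m s : ℕ} {j : Fin 3} (h : 3 * s + (j : ℕ) = m) (M : PMat K) :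
    idx_cf m M = PowerSeries.coeff s (M 0 j) := by
  unfold idx_cf
  have h1 : m / 3 = s := by omega
  have h2 : (⟨m % 3, Nat.mod_lt _ (by norm_num)⟩ : Fin 3) = j := by
    apply Fin.ext
    show m % 3 = (j : ℕ)
    omega
  rw [h1, h2]

theorem idx_step {M : PMat K} (hE : idx_E σ M) {m : ℕ} (hF : Filp m M) (h0 : idx_cf m M = 0) :
    Filp (m + 1) M := by
  intro i j s hs
  by_cases hlt : 3 * s + (j : ℕ) < m + (i : ℕ)
  · exact hF i j s hlt
  have heq : 3 * s + (j : ℕ) = m + (i : ℕ) := by omega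
  have key : ∀ (s : ℕ) (j : Fin 3), 3 * s + (j : ℕ) = m → PowerSeries.coeff s (M 0 j) = 0 := by
    intro s j h
    rw [← idx_cf_eq h]
    exact h0
  fin_cases i <;> fin_cases j
  · exact key s 0 (by simpa using heq)
  · exact key s 1 (by simpa using heq)
  · exact key s 2 (by simpa using heq)
  · simp only [Fin.mk_one, Fin.zero_eta, Fin.val_zero, Fin.val_one] at heq ⊢
    rw [hE.e10]
    cases s with
    | zero => exact idx_coeff_shift0 _
    | succ s =>
      rw [idx_coeff_shift, key s 2 (by simp; omega), map_zero]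
  · simp only [Fin.mk_one, Fin.val_one] at heq ⊢
    rw [hE.e11, idx_coeff_map, key s 0 (by simp; omega), map_zero]
  · simp only [Fin.mk_one, Fin.reduceFinMk, Fin.val_one, Fin.val_two] at heq ⊢
    rw [hE.e12, idx_coeff_map, key s 1 (by simp; omega), map_zero]
  · simp only [Fin.reduceFinMk, Fin.zero_eta, Fin.val_zero, Fin.val_two] at heq ⊢
    rw [hE.e20]
    cases s with
    | zero => exact idx_coeff_shift0 _
    | succ s =>
      rw [idx_coeff_shift, hE.e12, idx_coeff_map, key s 1 (by simp; omega), map_zero, map_zero]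
  · simp only [Fin.reduceFinMk, Fin.mk_one, Fin.val_one, Fin.val_two] at heq ⊢
    rw [hE.e21, idx_coeff_map, hE.e10]
    cases s with
    | zero => rw [idx_coeff_shift0, map_zero]
    | succ s =>
      rw [idx_coeff_shift, key s 2 (by simp; omega), map_zero, map_zero]
  · simp only [Fin.reduceFinMk, Fin.val_two] at heq ⊢
    rw [hE.e22, idx_coeff_map, hE.e11, idx_coeff_map, key s 0 (by simp; omega), map_zero, map_zero]

theorem idx_Filp0 {M : PMat K} (hE : idx_E σ M) : Filp 0 M := by
  intro i j s hs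
  fin_cases i <;> fin_cases j
  · simp at hs
  · simp at hs
  · simp at hs
  · simp only [Fin.mk_one, Fin.zero_eta, Fin.val_zero, Fin.val_one] at hs ⊢
    have : s = 0 := by omega
    rw [hE.e10, this]
    exact idx_coeff_shift0 _
  · simp only [Fin.mk_one, Fin.val_one] at hs
    omega
  · simp only [Fin.mk_one, Fin.reduceFinMk, Fin.val_one, Fin.val_two] at hs
    omega
  · simp only [Fin.reduceFinMk, Fin.zero_eta, Fin.val_zero, Fin.val_two] at hs ⊢
    have : s = 0 := by omega
    rw [hE.e20, this]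
    exact idx_coeff_shift0 _
  · simp only [Fin.reduceFinMk, Fin.mk_one, Fin.val_one, Fin.val_two] at hs ⊢
    have : s = 0 := by omega
    rw [hE.e21, this, idx_coeff_map, hE.e10, idx_coeff_shift0, map_zero]
  · simp only [Fin.reduceFinMk, Fin.val_two] at hs
    omega

/-- the constant coefficient has norm one -/
theorem idx_norm {M : PMat K} (hE : idx_E σ M) (hd : M.det = 1) :
    idx_cf 0 M * σ (idx_cf 0 M) * σ (σ (idx_cf 0 M)) = 1 := by
  have hF := idx_Filp0 hE
  have h10 : PowerSeries.coeff 0 (M 1 0) = 0 := hF 1 0 0 (by simp)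
  have h20 : PowerSeries.coeff 0 (M 2 0) = 0 := hF 2 0 0 (by simp)
  have h21 : PowerSeries.coeff 0 (M 2 1) = 0 := hF 2 1 0 (by simp)
  have h11 : PowerSeries.coeff 0 (M 1 1) = σ (PowerSeries.coeff 0 (M 0 0)) := by
    rw [hE.e11, idx_coeff_map]
  have h22 : PowerSeries.coeff 0 (M 2 2) = σ (σ (PowerSeries.coeff 0 (M 0 0))) := by
    rw [hE.e22, idx_coeff_map, h11]
  have hc : idx_cf 0 M = PowerSeries.coeff 0 (M 0 0) := idx_cf_eq (j := 0) (by simp) M
  have h := congrArg (PowerSeries.constantCoeff (R := K)) hd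
  rw [Matrix.det_fin_three] at h
  simp only [PowerSeries.coeff_zero_eq_constantCoeff] at h10 h20 h21 h11 h22 hc
  simp only [map_add, map_sub, map_mul, map_one, h10, h20, h21, h11, h22] at h
  rw [hc]
  linear_combination h

/-- the first coefficient of a norm one element close to one has trace zero -/
theorem idx_trace {g : PMat K} (hE : idx_E σ (g - 1)) (hd : g.det = 1) {s : ℕ} (hs : 1 ≤ s)
    (hF : Filp (3 * s) (g - 1)) :
    idx_cf (3 * s) (g - 1) + σ (idx_cf (3 * s) (g - 1)) + σ (σ (idx_cf (3 * s) (g - 1))) = 0 := by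
  set M := g - 1 with hM
  have hO := idx_Filp.1 hF
  have hc : idx_cf (3 * s) M = PowerSeries.coeff s (M 0 0) := idx_cf_eq (j := 0) (by simp) M
  have h11 : PowerSeries.coeff s (M 1 1) = σ (PowerSeries.coeff s (M 0 0)) := by
    rw [hE.e11, idx_coeff_map]
  have h22 : PowerSeries.coeff s (M 2 2) = σ (σ (PowerSeries.coeff s (M 0 0))) := by
    rw [hE.e22, idx_coeff_map, h11]
  have hg : g = 1 + M := by
    rw [hM]
    abel
  have h2 : ∀ i j : Fin 3, PowerSeries.coeff s (M i j * M j i) = 0 := by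
    intro i j
    apply idx_O_mul (hO i j) (hO j i) s
    push_cast
    omega
  have h2' : ∀ i j : Fin 3, PowerSeries.coeff s (M i i * M j j) = 0 := by
    intro i j
    apply idx_O_mul (hO i i) (hO j j) s
    push_cast
    omega
  have h3 : ∀ a b c : Fin 3, (a : ℕ) + b + c = 3 → PowerSeries.coeff s (M 0 a * M 1 b * M 2 c) = 0 := by
    intro a b c habc
    apply idx_O_mul (idx_O_mul (hO 0 a) (hO 1 b)) (hO 2 c) s
    simp only [Fin.val_zero, Fin.val_one, Fin.val_two]
    push_cast
    omega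
  have hdet : g.det = 1 + (M 0 0 + M 1 1 + M 2 2) + (M 0 0 * M 1 1 + M 0 0 * M 2 2 + M 1 1 * M 2 2
      - M 1 2 * M 2 1 - M 0 1 * M 1 0 - M 0 2 * M 2 0)
      + (M 0 0 * M 1 1 * M 2 2 - M 0 0 * M 1 2 * M 2 1 - M 0 1 * M 1 0 * M 2 2
        + M 0 1 * M 1 2 * M 2 0 + M 0 2 * M 1 0 * M 2 1 - M 0 2 * M 1 1 * M 2 0) := by
    rw [hg, Matrix.det_fin_three]
    simp only [Matrix.add_apply, Matrix.one_apply_eq, ne_eq, zero_ne_one, not_false_eq_true,
      Matrix.one_apply_ne, Fin.reduceEq, one_ne_zero, Fin.isValue]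
    ring
  have h := congrArg (PowerSeries.coeff s) (hdet.symm.trans hd)
  simp only [map_add, map_sub] at h
  have hone : PowerSeries.coeff s (1 : PowerSeries K) = 0 := by
    rw [PowerSeries.coeff_one, if_neg (by omega)]
  rw [hone, h2' 0 1, h2' 0 2, h2' 1 2, h2 1 2, h2 0 1, h2 0 2, h3 0 1 2 (by simp), h3 0 2 1 (by simp),
    h3 1 0 2 (by simp), h3 1 2 0 (by simp), h3 2 0 1 (by simp), h3 2 1 0 (by simp), h11, h22] at h
  rw [hc]
  linear_combination h

end circ

/-! ### index -/

theorem idx_index {G S : Type} [Group G] [Finite S] (H : Subgroup G) (f : G → S)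
    (h : ∀ x y, f x = f y → x⁻¹ * y ∈ H) : H.index ≠ 0 ∧ H.index ≤ Nat.card S := by
  have hinj : Function.Injective (fun q : G ⧸ H => f q.out) := by
    intro q q' hq
    have := h _ _ hq
    rw [← QuotientGroup.eq] at this
    rwa [QuotientGroup.out_eq', QuotientGroup.out_eq'] at this
  have hfin : Finite (G ⧸ H) := Finite.of_injective _ hinj
  refine ⟨?_, ?_⟩
  · rw [Subgroup.index]
    exact Nat.card_pos.ne'
  · rw [Subgroup.index]
    exact Nat.card_le_card_of_injective _ hinj

section group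

variable {K : Type} [Field K] {σ : K ≃+* K}

/-- the group -/
def idx_G (σ : K ≃+* K) : Subgroup (PMat K)ˣ where
  carrier := {g | Circ σ g.val ∧ g.val.det = 1}
  mul_mem' := by
    rintro a b ⟨ha, ha'⟩ ⟨hb, hb'⟩
    refine ⟨?_, ?_⟩
    · rw [Units.val_mul]
      exact idx_circ_mul ha hb
    · rw [Units.val_mul, Matrix.det_mul, ha', hb', one_mul]
  one_mem' := by
    refine ⟨?_, ?_⟩
    · rw [Units.val_one]
      exact idx_circ_one
    · rw [Units.val_one, Matrix.det_one]
  inv_mem' := by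
    rintro a ⟨ha, ha'⟩
    refine ⟨idx_circ_inv a ha, ?_⟩
    have h : (a⁻¹.val * a.val).det = 1 := by rw [Units.inv_mul, Matrix.det_one]
    rw [Matrix.det_mul, ha', mul_one] at h
    exact h

theorem idx_G_circ (g : idx_G σ) : Circ σ g.val.val := g.2.1

theorem idx_G_E (g : idx_G σ) : idx_E σ g.val.val := idx_circ_E g.2.1

theorem idx_G_E1 (g : idx_G σ) : idx_E σ (g.val.val - 1) :=
  idx_circ_E (idx_circ_sub g.2.1 idx_circ_one)

theorem idx_G_F0 (g : idx_G σ) : Filp 0 g.val.val := idx_Filp0 (idx_G_E g)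

theorem idx_left {d : ℕ} (g : idx_G σ) {M : PMat K} (h : Filp d M) : Filp d (g.val.val * M) := by
  have := idx_Filp_mul (idx_G_F0 g) h
  rwa [Nat.zero_add] at this

theorem idx_right {d : ℕ} (g : idx_G σ) {M : PMat K} (h : Filp d M) : Filp d (M * g.val.val) := by
  have := idx_Filp_mul h (idx_G_F0 g)
  rwa [Nat.add_zero] at this

theorem idx_inv_val (g : idx_G σ) : (g⁻¹ : idx_G σ).val.val = g.val⁻¹.val := rfl

theorem idx_mul_val (g h : idx_G σ) : (g * h : idx_G σ).val.val = g.val.val * h.val.val := rfl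

theorem idx_inv_mul (g : idx_G σ) : (g⁻¹ : idx_G σ).val.val * g.val.val = 1 := by
  rw [idx_inv_val, Units.inv_mul]

theorem idx_mul_inv (g : idx_G σ) : g.val.val * (g⁻¹ : idx_G σ).val.val = 1 := by
  rw [idx_inv_val, Units.mul_inv]

/-- congruence subgroups -/
def idx_N (σ : K ≃+* K) (d : ℕ) : Subgroup (idx_G σ) where
  carrier := {g | Filp d (g.val.val - 1)}
  mul_mem' := by
    intro a b ha hb
    have e : (a * b : idx_G σ).val.val - 1 = (a.val.val - 1) * b.val.val + (b.val.val - 1) := by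
      rw [idx_mul_val, sub_mul, one_mul]
      abel
    show Filp d _
    rw [e]
    exact idx_Filp_add (idx_right b ha) hb
  one_mem' := by
    show Filp d _
    have e : ((1 : idx_G σ)).val.val - 1 = (0 : PMat K) := sub_self _
    rw [e]
    exact idx_Filp_zero
  inv_mem' := by
    intro a ha
    show Filp d _
    have e : (a⁻¹ : idx_G σ).val.val - 1 = -((a⁻¹ : idx_G σ).val.val * (a.val.val - 1)) := by
      rw [mul_sub, idx_inv_mul, mul_one]
      abel
    rw [e]
    exact idx_Filp_neg (idx_left _ ha)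

theorem idx_mem_N {d : ℕ} (g : idx_G σ) : g ∈ idx_N σ d ↔ Filp d (g.val.val - 1) := Iff.rfl

theorem idx_normal (d : ℕ) : (idx_N σ d).Normal := by
  refine ⟨fun n hn g => ?_⟩
  rw [idx_mem_N] at *
  have e : (g * n * g⁻¹ : idx_G σ).val.val - 1
      = g.val.val * (n.val.val - 1) * (g⁻¹ : idx_G σ).val.val := by
    rw [idx_mul_val, idx_mul_val, mul_sub, sub_mul, mul_one, idx_mul_inv]
  rw [e]
  exact idx_right _ (idx_left _ hn)

theorem idx_N_le (d : ℕ) : idx_N σ (d + 1) ≤ idx_N σ d := fun _ hg => idx_Filp_mono (by omega) hg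

theorem idx_N_zero : idx_N σ 0 = ⊤ := by
  rw [eq_top_iff]
  intro g _
  exact idx_Filp0 (idx_G_E1 g)

/-- equal coefficients of degree `m` -/
theorem idx_same {m : ℕ} (x y : idx_G σ) (hx : Filp m (y.val.val - x.val.val))
    (h : idx_cf m (y.val.val - x.val.val) = 0) : x⁻¹ * y ∈ idx_N σ (m + 1) := by
  rw [idx_mem_N]
  have e : (x⁻¹ * y : idx_G σ).val.val - 1 = (x⁻¹ : idx_G σ).val.val * (y.val.val - x.val.val) := by
    rw [idx_mul_val, mul_sub, idx_inv_mul]
  rw [e]
  exact idx_left _ (idx_step (idx_circ_E (idx_circ_sub y.2.1 x.2.1)) hx h)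

theorem idx_cf_sub (m : ℕ) (M N : PMat K) : idx_cf m (M - N) = idx_cf m M - idx_cf m N := by
  unfold idx_cf
  rw [Matrix.sub_apply, map_sub]

variable [Finite K]

theorem idx_rel0 : (idx_N σ 1).index ≠ 0 ∧
    (idx_N σ 1).index ≤ Nat.card {x : K // x * σ x * σ (σ x) = 1} := by
  apply idx_index (idx_N σ 1) (fun g : idx_G σ =>
    (⟨idx_cf 0 g.val.val, idx_norm (idx_G_E g) g.2.2⟩ : {x : K // x * σ x * σ (σ x) = 1}))
  intro x y hxy
  have h := congrArg Subtype.val hxy
  dsimp only at h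
  apply idx_same
  · exact idx_Filp_sub (idx_G_F0 y) (idx_G_F0 x)
  · rw [idx_cf_sub, h, sub_self]

theorem idx_relm (m : ℕ) : (idx_N σ (m + 1)).relIndex (idx_N σ m) ≠ 0 ∧
    (idx_N σ (m + 1)).relIndex (idx_N σ m) ≤ Nat.card K := by
  rw [Subgroup.relIndex]
  apply idx_index _ (fun g : idx_N σ m => idx_cf m (g.val.val.val - 1))
  intro x y hxy
  rw [Subgroup.mem_subgroupOf]
  have e : ((x⁻¹ * y : idx_N σ m) : idx_G σ) = x.val⁻¹ * y.val := rfl
  rw [e]
  have e2 : y.val.val.val - x.val.val.val = (y.val.val.val - 1) - (x.val.val.val - 1) := by abel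
  apply idx_same
  · rw [e2]
    exact idx_Filp_sub y.2 x.2
  · rw [e2, idx_cf_sub, ← hxy, sub_self]

theorem idx_rel3 (s : ℕ) (hs : 1 ≤ s) :
    (idx_N σ (3 * s + 1)).relIndex (idx_N σ (3 * s)) ≤ Nat.card {x : K // x + σ x + σ (σ x) = 0} := by
  rw [Subgroup.relIndex]
  refine (idx_index _ (fun g : idx_N σ (3 * s) =>
    (⟨idx_cf (3 * s) (g.val.val.val - 1), idx_trace (idx_G_E1 g.val) g.val.2.2 hs g.2⟩ :
      {x : K // x + σ x + σ (σ x) = 0})) ?_).2
  intro x y hxy
  have h := congrArg Subtype.val hxy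
  dsimp only at h
  rw [Subgroup.mem_subgroupOf]
  have e : ((x⁻¹ * y : idx_N σ (3 * s)) : idx_G σ) = x.val⁻¹ * y.val := rfl
  rw [e]
  have e2 : y.val.val.val - x.val.val.val = (y.val.val.val - 1) - (x.val.val.val - 1) := by abel
  apply idx_same
  · rw [e2]
    exact idx_Filp_sub y.2 x.2
  · rw [e2, idx_cf_sub, ← h, sub_self]

theorem idx_main (n : ℕ) : (idx_N σ (n + 1)).index ≠ 0 ∧
    (idx_N σ (n + 1)).index ≤ Nat.card {x : K // x * σ x * σ (σ x) = 1} * Nat.card K ^ (n - n / 3) *
        Nat.card {x : K // x + σ x + σ (σ x) = 0} ^ (n / 3) := by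
  induction n with
  | zero =>
    have := idx_rel0 (σ := σ)
    simpa using this
  | succ n ih =>
    have hmul := Subgroup.relIndex_mul_index (idx_N_le (σ := σ) (n + 1))
    have hr := idx_relm (σ := σ) (n + 1)
    refine ⟨?_, ?_⟩
    · rw [← hmul]
      exact mul_ne_zero hr.1 ih.1
    · rw [← hmul]
      by_cases h3 : (n + 1) % 3 = 0
      · obtain ⟨s, hs⟩ : ∃ s, n + 1 = 3 * s := ⟨(n + 1) / 3, by omega⟩
        have h1 := idx_rel3 (σ := σ) s (by omega)
        rw [← hs] at h1
        have e1 : (n + 1) / 3 = n / 3 + 1 := by omega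
        have e2 : n + 1 - (n / 3 + 1) = n - n / 3 := by omega
        rw [e1, e2, pow_succ]
        calc (idx_N σ (n + 1 + 1)).relIndex (idx_N σ (n + 1)) * (idx_N σ (n + 1)).index
            ≤ Nat.card {x : K // x + σ x + σ (σ x) = 0} *
              (Nat.card {x : K // x * σ x * σ (σ x) = 1} * Nat.card K ^ (n - n / 3) *
                Nat.card {x : K // x + σ x + σ (σ x) = 0} ^ (n / 3)) := Nat.mul_le_mul h1 ih.2
          _ = _ := by ring
      · have e1 : (n + 1) / 3 = n / 3 := by omega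
        have e2 : n + 1 - n / 3 = (n - n / 3) + 1 := by omega
        rw [e1, e2, pow_succ]
        calc (idx_N σ (n + 1 + 1)).relIndex (idx_N σ (n + 1)) * (idx_N σ (n + 1)).index
            ≤ Nat.card K *
              (Nat.card {x : K // x * σ x * σ (σ x) = 1} * Nat.card K ^ (n - n / 3) *
                Nat.card {x : K // x + σ x + σ (σ x) = 0} ^ (n / 3)) := Nat.mul_le_mul hr.2 ih.2
          _ = _ := by ring

end group

theorem st_IDX : ST_IDX := by
  intro K _ _ σ _
  refine ⟨idx_G σ, fun g => Iff.rfl, fun d hd => ?_⟩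
  obtain ⟨n, rfl⟩ : ∃ n, d = n + 1 := ⟨d - 1, by omega⟩
  refine ⟨idx_N σ (n + 1), idx_normal _, fun g => Iff.rfl, ?_⟩
  rw [Nat.add_sub_cancel]
  exact idx_main n

end Pool.Agent.Helper50.GX
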